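import Pool.Agent.Helper47.EP.Goals

/-!
# Packet EP-OBJ (MP_5b9a11_al): points and objects
-/

set_option autoImplicit false

namespace Pool.Agent.Helper18.EP.OBJ

open MonoidAlgebra IsLocalRing Pool.Agent.Helper17.PF Pool.Agent.Helper47.EP

/-- fixed by the conjugation with the elements of `P` -/
def Fx {𝒪 G : Type} [CommRing 𝒪] [Group G] (P : Subgroup G) (x : MonoidAlgebra 𝒪 G) : Prop :=
  ∀ u ∈ P, single u (1 : 𝒪) * x * single u⁻¹ (1 : 𝒪) = x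

theorem Fx.mul {𝒪 G : Type} [CommRing 𝒪] [Group G] {P : Subgroup G} {x y : MonoidAlgebra 𝒪 G}
    (hx : Fx P x) (hy : Fx P y) : Fx P (x * y) := by
  intro u hu
  have h1 : single u⁻¹ (1 : 𝒪) * single u (1 : 𝒪) = (1 : MonoidAlgebra 𝒪 G) := by
    rw [single_mul_single, inv_mul_cancel, one_mul, one_def]
  calc single u (1 : 𝒪) * (x * y) * single u⁻¹ (1 : 𝒪)
      = single u (1 : 𝒪) * x * 1 * (y * single u⁻¹ (1 : 𝒪)) := by
        simp only [mul_assoc, one_mul]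
    _ = single u (1 : 𝒪) * x * (single u⁻¹ (1 : 𝒪) * single u (1 : 𝒪)) *
        (y * single u⁻¹ (1 : 𝒪)) := by rw [h1]
    _ = (single u (1 : 𝒪) * x * single u⁻¹ (1 : 𝒪)) *
        (single u (1 : 𝒪) * y * single u⁻¹ (1 : 𝒪)) := by simp only [mul_assoc]
    _ = x * y := by rw [hx u hu, hy u hu]

theorem Fx.bot {𝒪 G : Type} [CommRing 𝒪] [Group G] (x : MonoidAlgebra 𝒪 G) :
    Fx (⊥ : Subgroup G) x := by
  intro u hu
  rw [Subgroup.mem_bot.1 hu, inv_one, ← one_def, one_mul, mul_one]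

theorem Fx.center {𝒪 G : Type} [CommRing 𝒪] [Group G] (P : Subgroup G) {b : MonoidAlgebra 𝒪 G}
    (hb : b ∈ Set.center (MonoidAlgebra 𝒪 G)) : Fx P b := by
  intro u _
  rw [← ((Set.mem_center_iff.1 hb).comm (single u 1)).eq, mul_assoc, single_mul_single,
    mul_inv_cancel, one_mul, ← one_def, mul_one]

theorem t (hBRM : S_BRM) : S_OBJ := by
  intro p _ 𝒪 _ _ _ _ G _ _ b i e₀ D hD hb hi hbot hbD he₀
  have hbc : ∀ x, b * x = x * b := fun x => ((Set.mem_center_iff.1 hb.1).comm x).eq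
  have hbb : b * b = b := hb.2.1
  obtain ⟨hi1, hi2⟩ := hi
  have hib : i * b = i := hi1.1.1
  have he₀b : e₀ * b = e₀ := he₀.1.1
  refine ⟨⟨⟨i, hi1, rfl⟩, ?_, le_refl D, br D b, hbD, ?_, ?_⟩,
    ⟨⟨e₀, he₀, rfl⟩, ?_, bot_le, br ⊥ b, hbot, ?_, ?_⟩⟩
  · rintro j ⟨u, hu, v, hv, huv, hvu, rfl⟩ h0
    apply hi2
    have hfj : Fx D (u * i * v) := Fx.mul (Fx.mul hu.2 hi1.1.2) hv.2
    have e : v * ((u * i * v) * u) = i := by
      calc v * ((u * i * v) * u) = (v * u) * i * (v * u) := by simp only [mul_assoc]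
        _ = i := by rw [hvu, hbc, mul_assoc, hbb, hib]
    rw [← e, hBRM p 𝒪 G D hD _ _ hv.2 (Fx.mul hfj hu.2), hBRM p 𝒪 G D hD _ _ hfj hu.2, h0,
      zero_mul, mul_zero]
  · rw [← hBRM p 𝒪 G D hD _ _ hi1.1.2 (Fx.center D hb.1), hib]
  · rintro j ⟨u, hu, v, hv, huv, hvu, rfl⟩
    have hfj : Fx D (u * i * v) := Fx.mul (Fx.mul hu.2 hi1.1.2) hv.2
    rw [← hBRM p 𝒪 G D hD _ _ hfj (Fx.center D hb.1), mul_assoc, hv.1]
  · rintro j ⟨u, hu, v, hv, huv, hvu, rfl⟩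
    apply br_bot_ne
    by_contra hcon
    push Not at hcon
    have hr : red 𝒪 G (u * e₀ * v) = 0 := by
      ext g
      rw [coeff_red, hcon g]; simp
    have hid : (u * e₀ * v) * (u * e₀ * v) = u * e₀ * v := by
      calc (u * e₀ * v) * (u * e₀ * v) = u * (e₀ * (v * u)) * (e₀ * v) := by
            simp only [mul_assoc]
        _ = u * (e₀ * e₀) * v := by rw [hvu, he₀b]; simp only [mul_assoc]
        _ = u * e₀ * v := by rw [he₀.2.1]
    have h0 := idem_zero hid hr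
    apply he₀.2.2.1
    calc e₀ = (v * u) * e₀ * (v * u) := by rw [hvu, hbc, mul_assoc, hbb, he₀b]
      _ = v * (u * e₀ * v) * u := by simp only [mul_assoc]
      _ = 0 := by rw [h0]; simp
  · rw [← hBRM p 𝒪 G ⊥ IsPGroup.of_bot _ _ (Fx.bot i) (Fx.bot b), hib]
  · rintro j ⟨u, hu, v, hv, huv, hvu, rfl⟩
    rw [← hBRM p 𝒪 G ⊥ IsPGroup.of_bot _ _ (Fx.bot _) (Fx.bot b), mul_assoc, hv.1]

end Pool.Agent.Helper18.EP.OBJ
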